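import Pool.Agent.Run7.h293.LM.L16

/-!
# The graded pieces of positive level
-/

set_option autoImplicit false
set_option linter.unusedSectionVars false
set_option linter.unusedVariables false

namespace Run7.h293.SP

open Module Run7.h293.LM

section loc

variable {k V : Type*} [Field k] [AddCommGroup V] [Module k V]

/-- The graded pieces of positive level of the kernel of `N` have no isotropic stable subspaces. -/
def NoIsoPos (N : End k V) (𝒟 : Set (End k V)) (ω : V →ₗ[k] V →ₗ[k] k) : Prop :=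
  ∀ (m : ℕ) (A : Submodule k V), 1 ≤ m → Level N (m + 1) ≤ A → A ≤ Level N m →
    (∀ g ∈ 𝒟, ∀ x ∈ A, g x ∈ A) → (∀ x ∈ A, ∀ y, (N ^ m) y ∈ A → ω x y = 0) →
      A = Level N (m + 1)

variable {N : End k V} {𝒟 : Set (End k V)} {ω : V →ₗ[k] V →ₗ[k] k}

theorem kill_of_level_one {d : ℕ} (hN : N ^ d = 0) {R : Submodule k V} (hR : ∀ x ∈ R, N x ∈ R)
    (h : R ⊓ Level N 1 = ⊥) : ∀ x ∈ R, N x = 0 := by
  have hp : ∀ j, ∀ x ∈ R, (N ^ j) x ∈ R := by
    intro j
    induction j with
    | zero => intro x hx; exact hx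
    | succ j ih =>
      intro x hx
      rw [pow_succ', Module.End.mul_apply]
      exact hR _ (ih x hx)
  have key : ∀ j, ∀ x ∈ R, (N ^ (j + 1)) x = 0 → N x = 0 := by
    intro j
    induction j with
    | zero => intro x _ hx; rwa [zero_add, pow_one] at hx
    | succ j ih =>
      intro x hx h0
      refine ih x hx ?_
      have h1 : (N ^ (j + 1)) x ∈ R ⊓ Level N 1 := by
        refine ⟨hp _ x hx, mem_level.2 ⟨?_, (N ^ j) x, ?_⟩⟩
        · rw [← Module.End.mul_apply, ← pow_succ', h0]
        · rw [pow_one, ← Module.End.mul_apply, ← pow_succ']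
      rwa [h, Submodule.mem_bot] at h1
  intro x hx
  refine key d x hx ?_
  rw [pow_succ', Module.End.mul_apply, hN, LinearMap.zero_apply, map_zero]

/-- An isotropic pure stable subspace is killed by `N`. -/
theorem iso_pos (h : Loc N 𝒟 ω) (hno : NoIsoPos N 𝒟 ω) {R : Submodule k V} (hR : Stb N 𝒟 R)
    (hiso : ∀ x ∈ R, ∀ y ∈ R, ω x y = 0) (hp : ∀ m, R ⊓ Level N m ≤ R.map (N ^ m)) :
    ∀ x ∈ R, N x = 0 := by
  obtain ⟨d, hd⟩ := h.nil
  have key : ∀ m, 1 ≤ m → R ⊓ Level N m ≤ Level N (m + 1) := by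
    intro m hm1
    have h1 := hno m ((R ⊓ Level N m) ⊔ Level N (m + 1)) hm1 le_sup_right
      (sup_le inf_le_right (level_anti N (Nat.le_succ m))) (by
        intro g hg x hx
        obtain ⟨r, hr, l, hl, rfl⟩ := Submodule.mem_sup.1 hx
        rw [map_add]
        exact Submodule.add_mem_sup ((hR.inf (h.level_stb m)).2 g hg r hr)
          ((h.level_stb (m + 1)).2 g hg l hl)) (by
        intro x hx y hy
        obtain ⟨r, hr, l, hl, rfl⟩ := Submodule.mem_sup.1 hx
        obtain ⟨r', hr', l', hl', hrl⟩ := Submodule.mem_sup.1 hy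
        rw [map_add, LinearMap.add_apply]
        have hyl : (N ^ m) y ∈ LinearMap.ker N := by
          rw [← hrl]
          exact Submodule.add_mem _ hr'.2.1 hl'.1
        rw [h.level_succ_left hl hyl, add_zero]
        obtain ⟨r'', hr''R, hr''⟩ := hp m hr'
        have h2 : (N ^ m) (y - r'') ∈ Level N (m + 1) := by
          rw [map_sub, hr'', ← hrl, add_sub_cancel_left]
          exact hl'
        have h3 := h.level_succ_right hr.2 h2
        rw [map_sub, hiso r hr.1 r'' hr''R, sub_zero] at h3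
        exact h3)
    rw [← h1]
    exact le_sup_left
  have key2 : ∀ m, 1 ≤ m → R ⊓ Level N 1 ≤ Level N m := by
    intro m hm1
    induction m, hm1 using Nat.le_induction with
    | base => exact inf_le_right
    | succ m hm ih => exact fun x hx => key m hm ⟨hx.1, ih hx⟩
  refine kill_of_level_one hd hR.1 ?_
  rw [eq_bot_iff]
  have h1 := key2 (d + 1) (Nat.le_add_left 1 d)
  rwa [level_eq_bot hd (Nat.le_succ d)] at h1

/-- Multiplicity free positive levels have no isotropic subspaces. -/
theorem noIsoPos_of_mf [FiniteDimensional k V] (h : Loc N 𝒟 ω)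
    (hmf : ∀ m, 1 ≤ m → finrank k (Level N m) ≤ finrank k (Level N (m + 1)) + 1) :
    NoIsoPos N 𝒟 ω := by
  intro m A hm h1 h2 h3 h4
  by_contra hne
  have h5 : finrank k (Level N (m + 1)) < finrank k A :=
    Submodule.finrank_lt_finrank_of_lt (lt_of_le_of_ne h1 (Ne.symm hne))
  have h6 : A = Level N m := Submodule.eq_of_le_of_finrank_le h2 (by have := hmf m hm; omega)
  apply hne
  refine le_antisymm (fun x hx => ?_) h1
  refine h.mem_level_succ (h2 hx).1 fun y hy => h4 x hx y ?_
  rw [h6]
  refine mem_level.2 ⟨?_, y, rfl⟩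
  rw [← Module.End.mul_apply, ← pow_succ', hy]

end loc

end Run7.h293.SP
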