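import Pool.Agent.Run7.h293.LM.Defs

/-!
# Definitions for the semisimplicity of representations with Jordan blocks of size one
-/

set_option autoImplicit false

namespace Run7.h293.SP

open NumberField IsDedekindDomain Polynomial Module Run7.h293.LM Pool.Agent.Y114.GF
  Pool.Agent.Y114.MU Pool.Agent.N978.JT

section

variable {F : Type} [Field F] [NumberField F] {Γ : Type} [Group Γ] {ℓ : ℕ} [Fact ℓ.Prime] {w : ℕ}
  {Y : Type} [AddCommGroup Y] [Module ℚ_[ℓ] Y] [FiniteDimensional ℚ_[ℓ] Y]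
  (V : PolarizedRep F Γ ℓ w Y)

/-- The graded pieces `lev T m / lev T (m + 1)`, `T = τ - 1`, of positive level `m` (which come from the
Jordan blocks of size `m + 1 ≥ 2`), with the forms `(x, T ^ m y) ↦ ω x y`, have no nonzero
isotropic subspaces which are stable under the decomposition group and under `E`. -/
def AnisotropicPositive (E : Set (End ℚ_[ℓ] Y)) (v : HeightOneSpectrum (𝓞 F))
    (Q : Ideal (𝓞 (AlgebraicClosure F))) (τ : Gal(AlgebraicClosure F/F)) : Prop :=
  ∀ (m : ℕ) (A : Submodule ℚ_[ℓ] Y), 1 ≤ m →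
    lev (V.act τ - 1) (m + 1) ≤ A → A ≤ lev (V.act τ - 1) m →
    V.StableAt v Q A → (∀ f ∈ E, ∀ x ∈ A, f x ∈ A) →
    (∀ x ∈ A, ∀ y, ((V.act τ - 1) ^ m) y ∈ A → V.ω x y = 0) → A = lev (V.act τ - 1) (m + 1)

/-- The list `l` of the sizes of the Jordan blocks of `τ`; the sizes `≥ 2` are different from each other
(there can be any number of blocks of size one). -/
def DifferentNontrivialBlocks (τ : Gal(AlgebraicClosure F/F)) (l : Multiset ℕ) : Prop :=
  HasBlocks (V.act τ) l ∧ ∀ a, 2 ≤ a → l.count a ≤ 1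

/-- Up to finite index, the Galois group of `F` acts on each stable line through an integral power of
the cyclotomic character. -/
def IntegralLines : Prop :=
  ∀ R : Submodule ℚ_[ℓ] Y, finrank ℚ_[ℓ] R = 1 → (∀ g, ∀ x ∈ R, V.act g x ∈ R) →
    ∃ (m : ℤ) (J : Subgroup Gal(AlgebraicClosure F/F)), J.FiniteIndex ∧ ∀ g ∈ J, ∀ x ∈ R,
      V.act g x = (((cyclotomicCharacter (AlgebraicClosure F) ℓ g : ℤ_[ℓ]) : ℚ_[ℓ]) ^ m) • x

/-- `ω` vanishes on `U`. -/
def Isotropic (U : Submodule ℚ_[ℓ] Y) : Prop := ∀ x ∈ U, ∀ y ∈ U, V.ω x y = 0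

end

/-- A place `v` of `F` above the prime number `p`, a prime `Q` above `v` of the ring of algebraic
integers, and an element `τ` (of the inertia group). -/
structure LocalData (F : Type) [Field F] [NumberField F] where
  p : ℕ
  v : HeightOneSpectrum (𝓞 F)
  Q : Ideal (𝓞 (AlgebraicClosure F))
  τ : Gal(AlgebraicClosure F/F)

section

variable {F : Type} [Field F] [NumberField F] {Γ : Type} [Group Γ] {ℓ : ℕ} [Fact ℓ.Prime] {w : ℕ}
  {Y : Type} [AddCommGroup Y] [Module ℚ_[ℓ] Y] [FiniteDimensional ℚ_[ℓ] Y]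
  (V : PolarizedRep F Γ ℓ w Y) {κ : Type} (D : κ → LocalData F)

/-- Controlled monodromy at the places of the family `D`. -/
def ControlledAt (E : Set (End ℚ_[ℓ] Y)) : Prop :=
  ∀ c, V.Controlled E (D c).p (D c).v (D c).Q (D c).τ

/-- All the elements `τ` of the family `D` act trivially on `U`. -/
def FixedBy (U : Submodule ℚ_[ℓ] Y) : Prop := ∀ c, ∀ x ∈ U, V.act (D c).τ x = x

/-- No nonzero isotropic subspace which is stable under the group and under `E` is fixed by all the
elements `τ` of the family `D`. -/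
def NoIsotropicFixed (E : Set (End ℚ_[ℓ] Y)) : Prop :=
  ∀ R, V.StableUnder ⊤ R → (∀ f ∈ E, ∀ x ∈ R, f x ∈ R) → Isotropic V R → FixedBy V D R → R = ⊥

/-- No nonzero stable subspace is fixed by all the elements `τ` of the family `D`. -/
def NothingFixed : Prop := ∀ R, V.StableUnder ⊤ R → FixedBy V D R → R = ⊥

/-- The representation is semisimple under all subgroups of finite index. -/
def Semisimple : Prop := ∀ H : Subgroup Γ, H.FiniteIndex → V.SemisimpleUnder H

/-- The form is nondegenerate on all stable `E`-subspaces. -/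
def Nondegenerate (E : Set (End ℚ_[ℓ] Y)) : Prop :=
  ∀ U, V.StableUnder ⊤ U → (∀ f ∈ E, ∀ x ∈ U, f x ∈ U) → V.NondegenerateOn U

/-- The commutant is commutative, of dimension at most `r`, and its elements are self-adjoint and
diagonalizable. -/
def SmallCommutant (r : ℕ) : Prop :=
  (∀ f ∈ V.commutant ⊤, (∀ x y, V.ω (f x) y = V.ω x (f y)) ∧
    (∃ s : Finset ℚ_[ℓ], aeval f (∏ a ∈ s, (X - C a)) = 0) ∧
    ∀ g ∈ V.commutant ⊤, f * g = g * f) ∧
  finrank ℚ_[ℓ] (V.commutant ⊤) ≤ r

/-- The representation is irreducible, and only the scalars commute with it. -/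
def AbsolutelyIrreducible : Prop :=
  (∀ U, V.StableUnder ⊤ U → U = ⊥ ∨ U = ⊤) ∧ ∀ f ∈ V.commutant ⊤, ∃ b : ℚ_[ℓ], ∀ x, f x = b • x

/-- There is no stable line. -/
def NoLine : Prop := ∀ R, V.StableUnder ⊤ R → finrank ℚ_[ℓ] R ≠ 1

end

/-- The number of the elements `≥ 2` of a list. -/
def nontrivial (l : Multiset ℕ) : ℕ := (l.filter fun a => 2 ≤ a).card

end Run7.h293.SP
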