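import Pool.Agent.Run7.h293.SP.A
import Pool.Agent.Run7.h293.SP.Defs

/-!
# Isotropic stable subspaces
-/

set_option autoImplicit false
set_option linter.unusedSectionVars false
set_option linter.unusedVariables false

namespace Run7.h293.SP

open NumberField IsDedekindDomain Polynomial Module Run7.h293.LM Pool.Agent.Y114.GF
  Pool.Agent.Y115.T Pool.Agent.Y115.R Pool.Agent.Y115.Chi Pool.Agent.W569.FM Pool.Agent.W571.FM
  Pool.Agent.Y114.MU Pool.Agent.N978.JT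

variable {F : Type} [Field F] [NumberField F] {Γ : Type} [Group Γ] {ℓ : ℕ} [hℓ : Fact ℓ.Prime]
  {w : ℕ} {Y : Type} [AddCommGroup Y] [Module ℚ_[ℓ] Y] [FiniteDimensional ℚ_[ℓ] Y]
  {V : PolarizedRep F Γ ℓ w Y}

theorem noIsoPos_of {E : Set (End ℚ_[ℓ] Y)} {e : ℕ}
    {v : HeightOneSpectrum (𝓞 F)} {Q : Ideal (𝓞 (AlgebraicClosure F))}
    {τ : Gal(AlgebraicClosure F/F)} (hm : V.Monodromy e v Q τ)
    {u : End ℚ_[ℓ] Y}
    (hu : u ∈ Algebra.adjoin ℚ_[ℓ] ({V.act τ - 1} : Set (End ℚ_[ℓ] Y)))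
    (han : AnisotropicPositive V E v Q τ) :
    NoIsoPos ((V.act τ - 1) * (1 + (V.act τ - 1) * u)) (ops V E v Q) V.ω := by
  have hlev := level_eq_lev hm.unipotent hu
  intro m A hm1 h1 h2 h3 h4
  rw [hlev] at h1 h2 ⊢
  refine han m A hm1 h1 h2 ?_ ?_ ?_
  · intro g hg x hx
    exact h3 _ (Or.inl ⟨g, hg, rfl⟩) x hx
  · intro f hf x hx
    exact h3 f (Or.inr hf) x hx
  · intro x hx y hy
    refine h4 x hx y ?_
    have h5 : ((V.act τ - 1) ^ (m + 1)) y = 0 := by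
      rw [pow_succ', Module.End.mul_apply]
      exact (h2 hy).1
    rw [pow_eq_of_ker hu h5]
    exact hy

theorem anisotropicPositive_of {e : ℕ} {v : HeightOneSpectrum (𝓞 F)}
    {Q : Ideal (𝓞 (AlgebraicClosure F))} {τ : Gal(AlgebraicClosure F/F)}
    (hm : V.Monodromy e v Q τ) (hv : ¬ Above v ℓ) {l : Multiset ℕ}
    (hl : DifferentNontrivialBlocks V τ l) : AnisotropicPositive V ∅ v Q τ := by
  obtain ⟨u, hu, hloc, -⟩ := exists_loc coefficients_empty hm hv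
  have hlev := level_eq_lev hm.unipotent hu
  have hmf : ∀ m, 1 ≤ m → finrank ℚ_[ℓ] (Level ((V.act τ - 1) * (1 + (V.act τ - 1) * u)) m) ≤
      finrank ℚ_[ℓ] (Level ((V.act τ - 1) * (1 + (V.act τ - 1) * u)) (m + 1)) + 1 := by
    intro m hm1
    rw [hlev, hlev, lev_eq, lev_eq, count_level hl.1 m]
    have := hl.2 (m + 1) (by omega)
    omega
  have hno := noIsoPos_of_mf hloc hmf
  intro m A hm1 h1 h2 h3 h4 h5
  rw [← hlev] at h1 h2 ⊢
  refine hno m A hm1 h1 h2 ?_ ?_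
  · rintro g (⟨g, hg, rfl⟩ | hg)
    · exact h3 g hg
    · exact h4 g hg
  · intro x hx y hy
    have h6 : ((V.act τ - 1) ^ (m + 1)) y = 0 := by
      have h7 := (h2 hy).1
      have h8 : y ∈ LinearMap.ker (((V.act τ - 1) * (1 + (V.act τ - 1) * u)) ^ (m + 1)) := by
        rw [LinearMap.mem_ker, pow_succ', Module.End.mul_apply]
        exact h7
      obtain ⟨h9, h10⟩ := factor_pow hu (m + 1)
      rw [h9, h10, LinearMap.mem_ker, Module.End.mul_apply] at h8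
      have hun := (unit_factor hm.unipotent hu).pow (m + 1)
      exact ((Module.End.isUnit_iff _).1 hun).1 (by rw [h8, map_zero])
    refine h5 x hx y ?_
    rw [← pow_eq_of_ker hu h6]
    exact hy

section main

variable (h3 : V.ThreeGood) {E : Set (End ℚ_[ℓ] Y)} (hE : V.Coefficients E) {p : ℕ}
  {v : HeightOneSpectrum (𝓞 F)} {Q : Ideal (𝓞 (AlgebraicClosure F))}
  {τ : Gal(AlgebraicClosure F/F)} (hc : V.Controlled E p v Q τ)
  {R : Submodule ℚ_[ℓ] Y} (hR : StF V R) (hRE : ∀ f ∈ E, ∀ x ∈ R, f x ∈ R)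
  (hiso : Isotropic V R)

include h3 hE hc hR hRE hiso in
/-- Isotropic stable subspaces are fixed by `τ`. -/
theorem fixed_of_isotropic (ha : AnisotropicPositive V E v Q τ) : ∀ x ∈ R, V.act τ x = x := by
  have hp := fun m => pure_of_controlled h3 hE hc hR hRE m
  obtain ⟨hp', hv, e, he, ⟨hm, -⟩, -⟩ := hc
  obtain ⟨u, hu, hloc, -⟩ := exists_loc hE hm (above_ne hp' hv)
  have hno := noIsoPos_of hm hu ha
  have hT := T_stable hR τ
  have hNmem : (V.act τ - 1) * (1 + (V.act τ - 1) * u) ∈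
      Algebra.adjoin ℚ_[ℓ] ({V.act τ - 1} : Set (End ℚ_[ℓ] Y)) :=
    mul_mem (Algebra.self_mem_adjoin_singleton _ _) (add_mem (one_mem _)
      (mul_mem (Algebra.self_mem_adjoin_singleton _ _) hu))
  have h1 := iso_pos hloc hno (R := R) ⟨adjoin_stable hT hNmem, by
    rintro g (⟨g, -, rfl⟩ | hg)
    · exact hR g
    · exact hRE g hg⟩ hiso (pureN hm.unipotent hu hp)
  intro x hx
  have h2 : x ∈ Level ((V.act τ - 1) * (1 + (V.act τ - 1) * u)) 0 := by
    rw [level_zero]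
    exact h1 x hx
  rw [level_eq_lev hm.unipotent hu] at h2
  have h4 : (V.act τ - 1) x = 0 := h2.1
  rw [LinearMap.sub_apply, Module.End.one_apply, sub_eq_zero] at h4
  exact h4

include h3 hE hc hR hRE hiso in
/-- The dimension of the isotropic stable subspaces is at most half the number of the blocks of size
one. -/
theorem two_mul_le (ha : AnisotropicPositive V E v Q τ) {l : Multiset ℕ}
    (hl : HasBlocks (V.act τ) l) : 2 * finrank ℚ_[ℓ] R ≤ l.count 1 := by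
  have hfix := fixed_of_isotropic h3 hE hc hR hRE hiso ha
  have hp := fun m => pure_of_controlled h3 hE hc hR hRE m
  obtain ⟨hp', hv, e, he, ⟨hm, -⟩, -⟩ := hc
  obtain ⟨u, hu, hloc, -⟩ := exists_loc hE hm (above_ne hp' hv)
  have hlev := level_eq_lev hm.unipotent hu
  have hh := hloc.half hiso (pureN hm.unipotent hu hp) 0
  rw [hlev, hlev, lev_eq, lev_eq] at hh
  have hc0 := count_level hl 0
  rw [zero_add] at hh hc0
  have h1 : R ⊓ Level (V.act τ - 1) 0 = R := by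
    rw [level_zero]
    refine inf_eq_left.2 fun x hx => ?_
    rw [LinearMap.mem_ker, LinearMap.sub_apply, Module.End.one_apply, hfix x hx, sub_self]
  have h2 : R ⊓ Level (V.act τ - 1) 1 = ⊥ := by
    rw [eq_bot_iff]
    rintro x ⟨hx, hx1⟩
    obtain ⟨y, hy, rfl⟩ := hp 1 ⟨hx, hx1.2⟩
    rw [pow_one, LinearMap.sub_apply, Module.End.one_apply, hfix y hy, sub_self]
    exact Submodule.zero_mem _
  rw [h1, h2, finrank_bot] at hh
  omega

end main

/-- There are no stable lines in odd weight. -/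
theorem no_lines (h3 : V.ThreeGood) (hw : Odd w) (hi : IntegralLines V) {R : Submodule ℚ_[ℓ] Y}
    (hR : StF V R) : finrank ℚ_[ℓ] R ≠ 1 := by
  intro hR1
  obtain ⟨T, hT3, hT⟩ := h3
  obtain ⟨p, hpT⟩ : T.Nonempty := by
    rw [Set.nonempty_iff_ne_empty]
    rintro rfl
    simp at hT3
  obtain ⟨hp, hgood⟩ := hT p hpT
  obtain ⟨v, hv⟩ := exists_above (F := F) hp.1
  have hg := hgood v hv
  obtain ⟨Q, σ, hQ, hQv, hσ⟩ := frob_cm v
  have hover : PrimeOver Q v := ⟨hQ.isPrime, hQv⟩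
  obtain ⟨m, J, hJ, hact⟩ := hi R hR1 hR
  obtain ⟨k, hk, -, hkJ⟩ := Subgroup.exists_pow_mem_of_index_ne_zero hJ.index_ne_zero σ
  obtain ⟨j, hj⟩ := Pool.Agent.Y115.R.exists_j ℓ ℚ_[ℓ] ℚ (algebraMap ℚ ℚ_[ℓ]) (algebraMap ℚ ℂ)
  obtain ⟨-, hnorm⟩ := good_frob V hR hg hover hσ j
  have hcyc : ((cyclotomicCharacter (AlgebraicClosure F) ℓ σ : ℤ_[ℓ]) : ℚ_[ℓ]) = (q v : ℚ_[ℓ]) := by
    have h1 := Pool.Agent.Y115.Chi.chi_frob (ℓ := ℓ) hover.1
      (not_mem_of_above hover (above_ne hp hv)) hσ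
    have h6 := congrArg (fun z : ℤ_[ℓ] => (z : ℚ_[ℓ])) h1
    simp only [PadicInt.coe_natCast] at h6
    exact h6
  have hcyck : ((cyclotomicCharacter (AlgebraicClosure F) ℓ (σ ^ k : Gal(AlgebraicClosure F/F)) :
      ℤ_[ℓ]) : ℚ_[ℓ]) = (q v : ℚ_[ℓ]) ^ k := by
    rw [← hcyc]
    have h1 : cyclotomicCharacter (AlgebraicClosure F) ℓ
        (MulSemiringAction.toRingAut Gal(AlgebraicClosure F/F) (AlgebraicClosure F) (σ ^ k)) =
        (cyclotomicCharacter (AlgebraicClosure F) ℓ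
        (MulSemiringAction.toRingAut Gal(AlgebraicClosure F/F) (AlgebraicClosure F) σ)) ^ k := by
      rw [map_pow, map_pow]
    have h2 := congrArg (fun z : ℤ_[ℓ]ˣ => ((z : ℤ_[ℓ]) : ℚ_[ℓ])) h1
    simpa using h2
  have hq0 : (q v : ℚ_[ℓ]) ≠ 0 := Nat.cast_ne_zero.2 (q_ne v)
  have hdet : (psi V hR (σ ^ k) : ℚ_[ℓ]) = ((q v : ℚ_[ℓ]) ^ k) ^ m := by
    rw [psi_eq]
    have h1 : (V.act (σ ^ k)).restrict (le_comap V hR (σ ^ k)) =
        (((q v : ℚ_[ℓ]) ^ k) ^ m) • (LinearMap.id : End ℚ_[ℓ] R) := by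
      refine LinearMap.ext fun x => Subtype.ext ?_
      change V.act (σ ^ k) x = (((q v : ℚ_[ℓ]) ^ k) ^ m) • (x : Y)
      rw [hact _ hkJ x x.2, hcyck]
    rw [h1, LinearMap.det_smul, hR1, pow_one, LinearMap.det_id, mul_one]
  rw [map_pow, Units.val_pow_eq_pow_val] at hdet
  have h1 := congrArg (fun z => ‖j z‖ ^ 2) hdet
  simp only [map_pow, map_zpow₀, map_natCast, norm_pow, norm_zpow, Complex.norm_natCast] at h1
  rw [← pow_mul, mul_comm k 2, pow_mul, hnorm, hR1, Nat.cast_one, mul_one] at h1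
  have hq1 : (1 : ℝ) < q v := by exact_mod_cast two_le_q v
  have h2 : ((q v : ℝ) ^ (-(w : ℤ))) ^ k = (q v : ℝ) ^ (-(w : ℤ) * k) := by
    rw [zpow_mul, zpow_natCast]
  have h4 : (((q v : ℝ) ^ k) ^ m) ^ 2 = (q v : ℝ) ^ ((k : ℤ) * m * 2) := by
    rw [zpow_mul, zpow_mul, zpow_natCast]
    norm_cast
  have h5 : (q v : ℝ) ^ (-(w : ℤ) * k) = (q v : ℝ) ^ ((k : ℤ) * m * 2) := by
    rw [← h2, ← h4, ← h1]
  have h6 := zpow_right_injective₀ (by linarith) hq1.ne' h5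
  have h7 : (k : ℤ) ≠ 0 := by exact_mod_cast hk.ne'
  have h8 : -(w : ℤ) = m * 2 := by
    apply mul_left_cancel₀ h7
    linarith
  obtain ⟨a, ha⟩ := hw
  omega

end Run7.h293.SP
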