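import Pool.Agent.Run7.h293.LM.L16

/-!
# Endomorphisms commuting with several monodromy operators
-/

set_option autoImplicit false
set_option linter.unusedSectionVars false
set_option linter.unusedVariables false

namespace Run7.h293.SP

open Module Polynomial Run7.h293.LM

variable {k : Type*} [Field k] {V : Type*} [AddCommGroup V] [Module k V] [FiniteDimensional k V]
  {κ : Type*}

/-- Data for the commutant: nilpotent endomorphisms `N c` with multiplicity free positive levels, a form, a
subalgebra `C` of endomorphisms which commute with the `N c` and whose kernels have stable complements;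
these are zero if they are killed by all the `N c`. -/
structure ComF (N : κ → End k V) (ω : V →ₗ[k] V →ₗ[k] k) (C : Subalgebra k (End k V)) : Prop where
  loc : ∀ c, Loc (N c) ∅ ω
  mf : ∀ c m, 1 ≤ m → finrank k (Level (N c) m) ≤ finrank k (Level (N c) (m + 1)) + 1
  comm : ∀ c, ∀ f ∈ C, f * N c = N c * f
  adj : ∀ f ∈ C, ∃ f' ∈ C, ∀ x y, ω (f x) y = ω x (f' y)
  compl : ∀ f ∈ C, ∃ K : Submodule k V, (∀ c, ∀ x ∈ K, N c x ∈ K) ∧ IsCompl (LinearMap.ker f) K ∧
    ((∀ c, ∀ x ∈ K, N c x = 0) → K = ⊥)
  pure : ∀ c, ∀ f ∈ C, ∀ m, LinearMap.range f ⊓ Level (N c) m ≤ (LinearMap.range f).map (N c ^ m)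

variable {N : κ → End k V} {ω : V →ₗ[k] V →ₗ[k] k} {C : Subalgebra k (End k V)} (h : ComF N ω C)

include h in
theorem ComF.comm_pow {f : End k V} (hf : f ∈ C) (c : κ) (m : ℕ) (x : V) :
    f ((N c ^ m) x) = (N c ^ m) (f x) := by
  have h1 : Commute f (N c) := h.comm c f hf
  exact congrArg (fun T : End k V => T x) (h1.pow_right m).eq

include h in
theorem ComF.level {f : End k V} (hf : f ∈ C) {c : κ} {m : ℕ} {x : V} (hx : x ∈ Level (N c) m) :
    f x ∈ Level (N c) m := by
  obtain ⟨h0, y, rfl⟩ := mem_level.1 hx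
  refine mem_level.2 ⟨?_, f y, (h.comm_pow hf c m y).symm⟩
  have h1 := h.comm_pow hf c 1 ((N c ^ m) y)
  rw [pow_one] at h1
  rw [← h1, h0, map_zero]

include h in
/-- An element of the commutant which acts trivially on the graded pieces of positive level is zero. -/
theorem ComF.eq_zero {g : End k V} (hg : g ∈ C)
    (hgm : ∀ c m, 1 ≤ m → ∀ x ∈ Level (N c) m, g x ∈ Level (N c) (m + 1)) : g = 0 := by
  obtain ⟨K, hKN, hK, hK0⟩ := h.compl g hg
  have hkill : ∀ c, ∀ x ∈ K, N c x = 0 := by
    intro c
    obtain ⟨d, hd⟩ := (h.loc c).nil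
    have hRN : ∀ x ∈ LinearMap.range g, N c x ∈ LinearMap.range g := by
      rintro _ ⟨x, rfl⟩
      have h1 := h.comm_pow hg c 1 x
      rw [pow_one] at h1
      exact ⟨N c x, h1⟩
    have hKp : ∀ j, ∀ x ∈ K, (N c ^ j) x ∈ K := by
      intro j
      induction j with
      | zero => intro x hx; exact hx
      | succ j ih =>
        intro x hx
        rw [pow_succ', Module.End.mul_apply]
        exact hKN c _ (ih x hx)
    have key : ∀ m, 1 ≤ m → LinearMap.range g ⊓ Level (N c) m ≤ Level (N c) (m + 1) := by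
      intro m hm r hr
      obtain ⟨_, ⟨v, rfl⟩, hv⟩ := h.pure c g hg m hr
      obtain ⟨a, ha, b, hb, hab⟩ := Submodule.mem_sup.1
        (show v ∈ LinearMap.ker g ⊔ K by rw [hK.sup_eq_top]; trivial)
      have h1 : g v = g b := by
        rw [← hab, map_add, LinearMap.mem_ker.1 ha, zero_add]
      rw [h1, ← h.comm_pow hg] at hv
      have h2 : (N c ^ (m + 1)) b ∈ LinearMap.ker g ⊓ K := by
        refine ⟨?_, hKp _ b hb⟩
        change g ((N c ^ (m + 1)) b) = 0
        rw [h.comm_pow hg, pow_succ', Module.End.mul_apply, ← h.comm_pow hg, hv]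
        exact hr.2.1
      rw [hK.inf_eq_bot, Submodule.mem_bot] at h2
      rw [← hv]
      refine hgm c m hm _ (mem_level.2 ⟨?_, b, rfl⟩)
      rw [← Module.End.mul_apply, ← pow_succ', h2]
    have key2 : ∀ m, 1 ≤ m → LinearMap.range g ⊓ Level (N c) 1 ≤ Level (N c) m := by
      intro m hm
      induction m, hm using Nat.le_induction with
      | base => exact inf_le_right
      | succ m hm ih => exact fun x hx => key m hm ⟨hx.1, ih hx⟩
    have h3 : LinearMap.range g ⊓ Level (N c) 1 = ⊥ := by
      rw [eq_bot_iff]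
      have h1 := key2 (d + 1) (Nat.le_add_left 1 d)
      rwa [level_eq_bot hd (Nat.le_succ d)] at h1
    have h4 : ∀ x ∈ LinearMap.range g, N c x = 0 := by
      have hp : ∀ j, ∀ x ∈ LinearMap.range g, (N c ^ j) x ∈ LinearMap.range g := by
        intro j
        induction j with
        | zero => intro x hx; exact hx
        | succ j ih =>
          intro x hx
          rw [pow_succ', Module.End.mul_apply]
          exact hRN _ (ih x hx)
      have key3 : ∀ j, ∀ x ∈ LinearMap.range g, (N c ^ (j + 1)) x = 0 → N c x = 0 := by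
        intro j
        induction j with
        | zero => intro x _ hx; rwa [zero_add, pow_one] at hx
        | succ j ih =>
          intro x hx h0
          refine ih x hx ?_
          have h1 : (N c ^ (j + 1)) x ∈ LinearMap.range g ⊓ Level (N c) 1 := by
            refine ⟨hp _ x hx, mem_level.2 ⟨?_, (N c ^ j) x, ?_⟩⟩
            · rw [← Module.End.mul_apply, ← pow_succ', h0]
            · rw [pow_one, ← Module.End.mul_apply, ← pow_succ']
          rwa [h3, Submodule.mem_bot] at h1
      intro x hx
      refine key3 d x hx ?_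
      rw [pow_succ', Module.End.mul_apply, hd, LinearMap.zero_apply, map_zero]
    intro x hx
    have h5 : N c x ∈ LinearMap.ker g ⊓ K := by
      refine ⟨?_, hKN c x hx⟩
      change g (N c x) = 0
      have h1 := h.comm_pow hg c 1 x
      rw [pow_one] at h1
      rw [h1]
      exact h4 _ ⟨x, rfl⟩
    rwa [hK.inf_eq_bot, Submodule.mem_bot] at h5
  have h1 := hK0 hkill
  rw [h1] at hK
  have h2 : LinearMap.ker g = ⊤ := by simpa using hK.sup_eq_top
  exact LinearMap.ker_eq_top.1 h2

include h in
/-- The eigenvalues on the graded pieces. -/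
theorem ComF.exists_scalar {f : End k V} (hf : f ∈ C) (c : κ) (m : ℕ) (hm : 1 ≤ m) :
    ∃ a : k, ∀ x ∈ Level (N c) m, f x - a • x ∈ Level (N c) (m + 1) := by
  by_cases hle : Level (N c) m ≤ Level (N c) (m + 1)
  · refine ⟨0, fun x hx => ?_⟩
    rw [zero_smul, sub_zero]
    exact h.level hf (hle hx)
  obtain ⟨x₀, hx₀, hx₀'⟩ := SetLike.not_le_iff_exists.1 hle
  have hspan : Level (N c) m = (k ∙ x₀) ⊔ Level (N c) (m + 1) := by
    symm
    apply Submodule.eq_of_le_of_finrank_le
    · refine sup_le ?_ (level_anti (N c) (Nat.le_succ m))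
      rw [Submodule.span_singleton_le_iff_mem]
      exact hx₀
    · have h1 : Level (N c) (m + 1) < (k ∙ x₀) ⊔ Level (N c) (m + 1) := by
        refine lt_of_le_of_ne le_sup_right fun heq => hx₀' ?_
        rw [heq]
        exact Submodule.mem_sup_left (Submodule.mem_span_singleton_self x₀)
      have h2 := Submodule.finrank_lt_finrank_of_lt h1
      have h3 := h.mf c m hm
      omega
  obtain ⟨y, hy, l, hl, hyl⟩ := Submodule.mem_sup.1 (hspan ▸ h.level hf hx₀)
  obtain ⟨a, rfl⟩ := Submodule.mem_span_singleton.1 hy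
  refine ⟨a, fun x hx => ?_⟩
  obtain ⟨z, hz, l', hl', rfl⟩ := Submodule.mem_sup.1 (hspan ▸ hx)
  obtain ⟨b, rfl⟩ := Submodule.mem_span_singleton.1 hz
  have h1 : f (b • x₀ + l') - a • (b • x₀ + l') = b • l + (f l' - a • l') := by
    rw [map_add, map_smul, ← hyl, smul_add, smul_add, smul_comm b a]
    abel
  rw [h1]
  exact Submodule.add_mem _ (Submodule.smul_mem _ _ hl)
    (Submodule.sub_mem _ (h.level hf hl') (Submodule.smul_mem _ _ hl'))

include h in
/-- The elements of the commutant are self-adjoint. -/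
theorem ComF.selfAdjoint {f : End k V} (hf : f ∈ C) (x y : V) : ω (f x) y = ω x (f y) := by
  obtain ⟨f', hf', hadj⟩ := h.adj f hf
  have h0 : f - f' = 0 := by
    refine h.eq_zero (Subalgebra.sub_mem _ hf hf') fun c m hm x hx => ?_
    obtain ⟨a, ha⟩ := h.exists_scalar hf c m hm
    obtain ⟨b, hb⟩ := h.exists_scalar hf' c m hm
    by_cases hle : Level (N c) m ≤ Level (N c) (m + 1)
    · rw [LinearMap.sub_apply]
      exact Submodule.sub_mem _ (h.level hf (hle hx)) (h.level hf' (hle hx))
    obtain ⟨x₀, hx₀, hx₀'⟩ := SetLike.not_le_iff_exists.1 hle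
    have hex : ∃ y, (N c ^ (m + 1)) y = 0 ∧ ω x₀ y ≠ 0 := by
      by_contra hcon
      push Not at hcon
      exact hx₀' ((h.loc c).mem_level_succ hx₀.1 hcon)
    obtain ⟨y₀, hy₀, hne⟩ := hex
    have hyk : (N c ^ m) y₀ ∈ Level (N c) m := by
      refine mem_level.2 ⟨?_, y₀, rfl⟩
      rw [← Module.End.mul_apply, ← pow_succ', hy₀]
    have e1 : ω (f x₀) y₀ = a * ω x₀ y₀ := by
      have h1 := (h.loc c).level_succ_left (ha x₀ hx₀) hyk.1
      rw [map_sub, LinearMap.sub_apply, map_smul, LinearMap.smul_apply, sub_eq_zero] at h1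
      exact h1
    have e2 : ω x₀ (f' y₀) = b * ω x₀ y₀ := by
      have h2 : (N c ^ m) (f' y₀ - b • y₀) ∈ Level (N c) (m + 1) := by
        rw [map_sub, map_smul, ← h.comm_pow hf']
        exact hb _ hyk
      have h1 := (h.loc c).level_succ_right hx₀ h2
      rw [map_sub, map_smul, sub_eq_zero] at h1
      exact h1
    have e3 : a = b := by
      have h1 := hadj x₀ y₀
      rw [e1, e2] at h1
      exact mul_right_cancel₀ hne h1
    have e4 : (f - f') x = (f x - a • x) - (f' x - b • x) := by
      rw [LinearMap.sub_apply, e3]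
      abel
    rw [e4]
    exact Submodule.sub_mem _ (ha x hx) (hb x hx)
  rw [sub_eq_zero] at h0
  rw [hadj, ← h0]

include h in
/-- The commutant is commutative. -/
theorem ComF.commutative {f g : End k V} (hf : f ∈ C) (hg : g ∈ C) : f * g = g * f := by
  rw [← sub_eq_zero]
  refine h.eq_zero (Subalgebra.sub_mem _ (mul_mem hf hg) (mul_mem hg hf)) fun c m hm x hx => ?_
  obtain ⟨a, ha⟩ := h.exists_scalar hf c m hm
  obtain ⟨b, hb⟩ := h.exists_scalar hg c m hm
  have e1 : (f * g - g * f) x = (f (g x - b • x) - a • (g x - b • x)) -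
      (g (f x - a • x) - b • (f x - a • x)) := by
    simp only [LinearMap.sub_apply, Module.End.mul_apply, map_sub, map_smul, smul_sub]
    rw [smul_comm b a]
    abel
  rw [e1]
  have h1 := hb x hx
  have h2 := ha x hx
  exact Submodule.sub_mem _
    (Submodule.sub_mem _ (h.level hf h1) (Submodule.smul_mem _ _ h1))
    (Submodule.sub_mem _ (h.level hg h2) (Submodule.smul_mem _ _ h2))

include h in
/-- The elements of the commutant are diagonalizable. -/
theorem ComF.split [Fintype κ] {f : End k V} (hf : f ∈ C) : ∃ s : Finset k,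
    aeval f (∏ a ∈ s, (X - Polynomial.C a)) = 0 := by
  classical
  choose d hd using fun c => (h.loc c).nil
  have hex : ∀ c m, ∃ a : k, 1 ≤ m → ∀ x ∈ Level (N c) m, f x - a • x ∈ Level (N c) (m + 1) := by
    intro c m
    by_cases hm : 1 ≤ m
    · obtain ⟨a, ha⟩ := h.exists_scalar hf c m hm
      exact ⟨a, fun _ => ha⟩
    · exact ⟨0, fun h => absurd h hm⟩
  choose a ha using hex
  refine ⟨Finset.univ.biUnion fun c => (Finset.range (d c)).image (a c), ?_⟩
  have hmem : ∀ p : k[X], aeval f p ∈ C := fun p => by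
    have h1 : aeval f p ∈ Algebra.adjoin k {f} := aeval_mem_adjoin_singleton k f
    exact (Algebra.adjoin_le (by rintro _ rfl; exact hf)) h1
  refine h.eq_zero (hmem _) fun c m hm1 x hx => ?_
  by_cases hm : d c ≤ m
  · rw [level_eq_bot (hd c) hm, Submodule.mem_bot] at hx
    rw [hx, map_zero]
    exact Submodule.zero_mem _
  rw [not_le] at hm
  have h1 : a c m ∈ Finset.univ.biUnion fun c => (Finset.range (d c)).image (a c) :=
    Finset.mem_biUnion.2 ⟨c, Finset.mem_univ c, Finset.mem_image_of_mem (a c) (Finset.mem_range.2 hm)⟩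
  rw [← Finset.mul_prod_erase _ _ h1, mul_comm, map_mul, Module.End.mul_apply]
  refine h.level (hmem _) ?_
  rw [map_sub, aeval_X, aeval_C, LinearMap.sub_apply]
  exact ha c m hm1 x hx

open Classical in
/-- The positive levels where there is a block. -/
noncomputable def blocksPos (N : End k V) (d : ℕ) : Finset ℕ :=
  (Finset.range d).filter fun m => 1 ≤ m ∧ ¬ Level N m ≤ Level N (m + 1)

theorem card_blocksPos (N : End k V) {d : ℕ} : (blocksPos N d).card ≤ finrank k (Level N 1) := by
  classical
  have key : ∀ r, 1 ≤ r → (blocksPos N r).card + finrank k (Level N r) ≤ finrank k (Level N 1) := by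
    intro r hr
    induction r, hr using Nat.le_induction with
    | base =>
      have h0 : blocksPos N 1 = ∅ := by
        unfold blocksPos
        rw [Finset.filter_eq_empty_iff]
        intro m hm
        rw [Finset.mem_range] at hm
        omega
      rw [h0, Finset.card_empty, zero_add]
    | succ r hr ih =>
      unfold blocksPos at ih ⊢
      rw [Finset.range_add_one, Finset.filter_insert]
      by_cases hle : Level N r ≤ Level N (r + 1)
      · rw [if_neg (fun h => h.2 hle)]
        have h2 := Submodule.finrank_mono (show Level N (r + 1) ≤ Level N r from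
          level_anti N (Nat.le_succ r))
        omega
      · rw [if_pos ⟨hr, hle⟩, Finset.card_insert_of_notMem (by simp)]
        have h2 : finrank k (Level N (r + 1)) < finrank k (Level N r) :=
          Submodule.finrank_lt_finrank_of_lt (lt_of_le_of_ne (level_anti N (Nat.le_succ r))
            fun heq => hle heq.ge)
        omega
  rcases Nat.eq_zero_or_pos d with h0 | h0
  · have h1 : blocksPos N d = ∅ := by
      rw [h0]
      unfold blocksPos
      simp
    rw [h1]
    simp
  · have := key d h0
    omega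

include h in
/-- The dimension of the commutant. -/
theorem ComF.finrank_le [Fintype κ] : finrank k C ≤ ∑ c, finrank k (Level (N c) 1) := by
  classical
  choose d hd using fun c => (h.loc c).nil
  have hch : ∀ (c : κ) (m : ℕ), ∃ (x : V) (ξ : V →ₗ[k] k), x ∈ Level (N c) m ∧
      (∀ y ∈ Level (N c) (m + 1), ξ y = 0) ∧ (¬ Level (N c) m ≤ Level (N c) (m + 1) → ξ x ≠ 0) := by
    intro c m
    by_cases hle : Level (N c) m ≤ Level (N c) (m + 1)
    · exact ⟨0, 0, Submodule.zero_mem _, fun _ _ => rfl, fun hn => absurd hle hn⟩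
    obtain ⟨x₀, hx₀, hx₀'⟩ := SetLike.not_le_iff_exists.1 hle
    obtain ⟨ξ, hξ, hξ'⟩ := Submodule.exists_le_ker_of_notMem hx₀'
    exact ⟨x₀, ξ, hx₀, fun y hy => LinearMap.mem_ker.1 (hξ' hy), fun _ => hξ⟩
  choose x ξ hx hξ hne using hch
  let Λ : C →ₗ[k] ((Σ c, blocksPos (N c) (d c)) → k) :=
    { toFun := fun f m => ξ m.1 m.2 (f.1 (x m.1 m.2))
      map_add' := fun f g => by
        funext m
        change ξ m.1 m.2 ((f.1 + g.1) (x m.1 m.2)) = _
        rw [LinearMap.add_apply, map_add]
        rfl
      map_smul' := fun c f => by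
        funext m
        change ξ m.1 m.2 ((c • f.1) (x m.1 m.2)) = _
        rw [LinearMap.smul_apply, map_smul]
        rfl }
  have hinj : Function.Injective Λ := by
    rw [← LinearMap.ker_eq_bot, eq_bot_iff]
    intro f hf
    rw [Submodule.mem_bot]
    apply Subtype.ext
    refine h.eq_zero f.2 fun c m hm1 y hy => ?_
    by_cases hm : d c ≤ m
    · rw [level_eq_bot (hd c) hm, Submodule.mem_bot] at hy
      rw [hy, map_zero]
      exact Submodule.zero_mem _
    rw [not_le] at hm
    by_cases hle : Level (N c) m ≤ Level (N c) (m + 1)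
    · exact h.level f.2 (hle hy)
    obtain ⟨a, ha⟩ := h.exists_scalar f.2 c m hm1
    have hmem : m ∈ blocksPos (N c) (d c) := by
      unfold blocksPos
      rw [Finset.mem_filter, Finset.mem_range]
      exact ⟨hm, hm1, hle⟩
    have h1 := congrFun (LinearMap.mem_ker.1 hf) ⟨c, ⟨m, hmem⟩⟩
    change ξ c m (f.1 (x c m)) = 0 at h1
    have h2 := hξ c m _ (ha (x c m) (hx c m))
    rw [map_sub, h1, map_smul, zero_sub, neg_eq_zero] at h2
    have h3 : a = 0 := (smul_eq_zero.1 h2).resolve_right (hne c m hle)
    have h4 := ha y hy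
    rwa [h3, zero_smul, sub_zero] at h4
  have h1 := LinearMap.finrank_le_finrank_of_injective hinj
  rw [Module.finrank_fintype_fun_eq_card, Fintype.card_sigma] at h1
  refine h1.trans (Finset.sum_le_sum fun c _ => ?_)
  rw [Fintype.card_coe]
  exact card_blocksPos (N c)

end Run7.h293.SP
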