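import Pool.Agent.Run7.h293.SP.B
import Pool.Agent.Run7.h293.SP.C

/-!
# The theorems
-/

set_option autoImplicit false
set_option linter.unusedSectionVars false
set_option linter.unusedVariables false

namespace Run7.h293.SP

open NumberField IsDedekindDomain Polynomial Module Run7.h293.LM Pool.Agent.Y114.GF
  Pool.Agent.Y115.T Pool.Agent.Y115.R Pool.Agent.Y115.Chi Pool.Agent.W569.FM Pool.Agent.W571.FM
  Pool.Agent.Y114.MU Pool.Agent.N978.JT

variable {F : Type} [Field F] [NumberField F] {Γ : Type} [Group Γ] {ℓ : ℕ} [hℓ : Fact ℓ.Prime]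
  {w : ℕ} {Y : Type} [AddCommGroup Y] [Module ℚ_[ℓ] Y] [FiniteDimensional ℚ_[ℓ] Y]
  {V : PolarizedRep F Γ ℓ w Y} {κ : Type} {D : κ → LocalData F} {E : Set (End ℚ_[ℓ] Y)}

theorem nondeg_of_fixed (h3 : V.ThreeGood) (hE : V.Coefficients E) (hc : ControlledAt V D E)
    (ha : ∀ c, AnisotropicPositive V E (D c).v (D c).Q (D c).τ) (hN : NoIsotropicFixed V D E)
    {U : Submodule ℚ_[ℓ] Y} (hU : V.StableUnder ⊤ U) (hUE : ∀ f ∈ E, ∀ x ∈ U, f x ∈ U) :
    U ⊓ V.orth U = ⊥ := by
  obtain ⟨ho, hoE⟩ := orth_stable hE hU hUE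
  have hR : V.StableUnder ⊤ (U ⊓ V.orth U) := fun g hg x hx =>
    ⟨hU g hg x hx.1, ho g hg x hx.2⟩
  have hRE : ∀ f ∈ E, ∀ x ∈ U ⊓ V.orth U, f x ∈ U ⊓ V.orth U := fun f hf x hx =>
    ⟨hUE f hf x hx.1, hoE f hf x hx.2⟩
  have hiso : Isotropic V (U ⊓ V.orth U) := fun x hx y hy => hx.2 y hy.1
  exact hN _ hR hRE hiso fun c =>
    fixed_of_isotropic h3 hE (hc c) (stF_of_top hR) hRE hiso (ha c)

theorem nondegenerateOn_of {U : Submodule ℚ_[ℓ] Y} (h : U ⊓ V.orth U = ⊥) :
    V.NondegenerateOn U := by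
  intro x hx hy
  have h1 : x ∈ U ⊓ V.orth U := ⟨hx, hy⟩
  rw [h] at h1
  exact h1

theorem main_one (h3 : V.ThreeGood) (hE : V.Coefficients E) (hc : ControlledAt V D E)
    (ha : ∀ c, AnisotropicPositive V E (D c).v (D c).Q (D c).τ) (hN : NoIsotropicFixed V D E) :
    Semisimple V ∧ Nondegenerate V E :=
  ⟨fun H hH => semisimple_of_nondeg hE (fun U hU hUE => nondeg_of_fixed h3 hE hc ha hN hU hUE) H hH,
    fun U hU hUE => nondegenerateOn_of (nondeg_of_fixed h3 hE hc ha hN hU hUE)⟩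

theorem noLine_of_odd (h3 : V.ThreeGood) (hw : Odd w) (hi : IntegralLines V) : NoLine V :=
  fun _ hR => no_lines h3 hw hi (stF_of_top hR)

/-- Few blocks of size one. -/
theorem main_few (h3 : V.ThreeGood) (hc : ControlledAt V D ∅) {l : κ → Multiset ℕ}
    (hl : ∀ c, DifferentNontrivialBlocks V (D c).τ (l c))
    (hs : ∃ c, (l c).count 1 ≤ 1 ∨ ((l c).count 1 ≤ 3 ∧ NoLine V)) :
    NoIsotropicFixed V D ∅ := by
  intro R hR hRE hiso hfix
  obtain ⟨c, hcs⟩ := hs
  have h1 := two_mul_le h3 coefficients_empty (hc c) (stF_of_top hR) hRE hiso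
    (anisotropicPositive_of (hc c).2.2.choose_spec.2.1.1 (above_ne (hc c).1 (hc c).2.1) (hl c)) (hl c).1
  rcases hcs with h2 | ⟨h2, h4⟩
  · exact Submodule.finrank_eq_zero.1 (by omega)
  · have h5 := h4 R hR
    exact Submodule.finrank_eq_zero.1 (by omega)

theorem card_filter (l : Multiset ℕ) (h0 : 0 ∉ l) : l.card = nontrivial l + l.count 1 := by
  unfold nontrivial
  induction l using Multiset.induction_on with
  | empty => simp
  | cons a l ih =>
    have h1 := ih fun h => h0 (Multiset.mem_cons_of_mem h)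
    have ha : a ≠ 0 := by
      rintro rfl
      exact h0 (Multiset.mem_cons_self 0 l)
    by_cases ha1 : a = 1
    · subst ha1
      have h2 : (1 ::ₘ l).filter (fun a => 2 ≤ a) = l.filter (fun a => 2 ≤ a) :=
        Multiset.filter_cons_of_neg _ (by omega)
      rw [Multiset.card_cons, h2, Multiset.count_cons_self, h1]
      omega
    · have h2 : (a ::ₘ l).filter (fun a => 2 ≤ a) = a ::ₘ l.filter (fun a => 2 ≤ a) :=
        Multiset.filter_cons_of_pos _ (by omega)
      rw [Multiset.card_cons, h2, Multiset.card_cons,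
        Multiset.count_cons_of_ne (Ne.symm ha1), h1]
      omega

theorem kerDims_one (l : Multiset ℕ) (h0 : 0 ∉ l) : kerDims l 1 = l.card := by
  induction l using Multiset.induction_on with
  | empty => simp [kerDims]
  | cons a l ih =>
    unfold kerDims at ih ⊢
    rw [Multiset.map_cons, Multiset.sum_cons, Multiset.card_cons,
      ih fun h => h0 (Multiset.mem_cons_of_mem h)]
    have ha : a ≠ 0 := by
      rintro rfl
      exact h0 (Multiset.mem_cons_self 0 l)
    have : min a 1 = 1 := by omega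
    omega

theorem finrank_level_one {g : End ℚ_[ℓ] Y} {l : Multiset ℕ} (hl : HasBlocks g l) :
    finrank ℚ_[ℓ] (Level (g - 1) 1) = nontrivial l := by
  have h1 := count_level hl 0
  rw [zero_add, level_zero] at h1
  have h2 := hl.2.2 1
  rw [pow_one, kerDims_one l hl.1] at h2
  have h3 := card_filter l hl.1
  omega

/-- The data for the commutant. -/
theorem comF_of (h3 : V.ThreeGood) (hc : ControlledAt V D ∅) {l : κ → Multiset ℕ}
    (hl : ∀ c, DifferentNontrivialBlocks V (D c).τ (l c)) (hN : NothingFixed V D) :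
    ∃ N : κ → End ℚ_[ℓ] Y, ComF N V.ω (V.commutant ⊤) ∧
      ∀ c, finrank ℚ_[ℓ] (Level (N c) 1) = nontrivial (l c) := by
  have hex : ∀ c, ∃ u ∈ Algebra.adjoin ℚ_[ℓ] ({V.act (D c).τ - 1} : Set (End ℚ_[ℓ] Y)),
      Loc ((V.act (D c).τ - 1) * (1 + (V.act (D c).τ - 1) * u)) ∅ V.ω := by
    intro c
    obtain ⟨hp', hv, e, he, ⟨hm, -⟩, -⟩ := hc c
    obtain ⟨u, hu, hloc, -⟩ := exists_loc coefficients_empty hm (above_ne hp' hv)
    exact ⟨u, hu, hloc.nil, fun f hf => absurd hf (Set.notMem_empty f), hloc.nondeg, hloc.symm,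
      hloc.skew, fun f hf => absurd hf (Set.notMem_empty f)⟩
  choose u hu hloc using hex
  have hun : ∀ c, IsNilpotent (V.act (D c).τ - 1) := fun c => (hl c).1.2.1
  have hlev := fun c => level_eq_lev (hun c) (hu c)
  have hNmem : ∀ c, (V.act (D c).τ - 1) * (1 + (V.act (D c).τ - 1) * u c) ∈
      Algebra.adjoin ℚ_[ℓ] ({V.act (D c).τ - 1} : Set (End ℚ_[ℓ] Y)) := fun c =>
    mul_mem (Algebra.self_mem_adjoin_singleton _ _) (add_mem (one_mem _)
      (mul_mem (Algebra.self_mem_adjoin_singleton _ _) (hu c)))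
  have hst : ∀ c U, V.StableUnder ⊤ U →
      (∀ x ∈ U, ((V.act (D c).τ - 1) * (1 + (V.act (D c).τ - 1) * u c)) x ∈ U) := fun c U hU =>
    adjoin_stable (T_stable (stF_of_top hU) (D c).τ) (hNmem c)
  have hkerst : ∀ f ∈ V.commutant ⊤, V.StableUnder ⊤ (LinearMap.ker f) := by
    intro f hf a ha x hx
    rw [LinearMap.mem_ker] at hx ⊢
    have h1 := congrArg (fun X : End ℚ_[ℓ] Y => X x) (mem_commutant.1 hf a ha)
    simp only [Module.End.mul_apply] at h1
    rw [← h1, hx, map_zero]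
  have hrst : ∀ f ∈ V.commutant ⊤, V.StableUnder ⊤ (LinearMap.range f) := by
    rintro f hf a ha _ ⟨x, rfl⟩
    have h1 := congrArg (fun X : End ℚ_[ℓ] Y => X x) (mem_commutant.1 hf a ha)
    exact ⟨V.ρ a x, h1.symm⟩
  have hnd : ∀ U, V.StableUnder ⊤ U → U ⊓ V.orth U = ⊥ := fun U hU =>
    nondeg_of_fixed h3 coefficients_empty hc (fun c => anisotropicPositive_of
      (hc c).2.2.choose_spec.2.1.1 (above_ne (hc c).1 (hc c).2.1) (hl c))
      (fun R hR _ _ hfix => hN R hR hfix) hU fun f hf => absurd hf (Set.notMem_empty f)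
  refine ⟨fun c => (V.act (D c).τ - 1) * (1 + (V.act (D c).τ - 1) * u c), ⟨hloc, ?_, ?_, ?_, ?_, ?_⟩,
    ?_⟩
  · intro c m hm
    rw [hlev, hlev, lev_eq, lev_eq, count_level (hl c).1 m]
    have := (hl c).2 (m + 1) (by omega)
    omega
  · intro c f hf
    refine adjoin_comm ?_ (hNmem c)
    rw [mul_sub, sub_mul, mul_one, one_mul]
    congr 1
    exact (mem_commutant.1 hf (V.θ (D c).τ) trivial).symm
  · intro f hf
    exact exists_adjoint hf
  · intro f hf
    have h1 := hkerst f hf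
    have h2 := (orth_stable (E := ∅) coefficients_empty h1
      fun f hf => absurd hf (Set.notMem_empty f)).1
    refine ⟨V.orth (LinearMap.ker f), fun c => hst c _ h2, orth_isCompl (hnd _ h1), fun hk => ?_⟩
    refine hN _ h2 fun c x hx => ?_
    have h4 : x ∈ Level ((V.act (D c).τ - 1) * (1 + (V.act (D c).τ - 1) * u c)) 0 := by
      rw [level_zero]
      exact hk c x hx
    rw [hlev] at h4
    have h5 : (V.act (D c).τ - 1) x = 0 := h4.1
    rw [LinearMap.sub_apply, Module.End.one_apply, sub_eq_zero] at h5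
    exact h5
  · intro c f hf m
    exact pureN (hun c) (hu c) (fun m => pure_of_controlled h3 coefficients_empty (hc c)
      (stF_of_top (hrst f hf)) (fun f hf => absurd hf (Set.notMem_empty f)) m) m
  · intro c
    rw [hlev, lev_eq]
    exact finrank_level_one (hl c).1

theorem main_commutant [Fintype κ] (h3 : V.ThreeGood) (hc : ControlledAt V D ∅) {l : κ → Multiset ℕ}
    (hl : ∀ c, DifferentNontrivialBlocks V (D c).τ (l c)) (hN : NothingFixed V D) :
    SmallCommutant V (∑ c, nontrivial (l c)) := by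
  obtain ⟨N, hcom, hfr⟩ := comF_of h3 hc hl hN
  refine ⟨fun f hf => ⟨fun x y => hcom.selfAdjoint hf x y, hcom.split hf, fun g hg =>
    hcom.commutative hf hg⟩, ?_⟩
  have h1 := hcom.finrank_le
  rwa [Finset.sum_congr rfl fun c _ => hfr c] at h1

/-- A semisimple representation whose commutant has dimension one is irreducible. -/
theorem irreducible_of_commutant (hs : V.SemisimpleUnder ⊤)
    (h1 : finrank ℚ_[ℓ] (V.commutant ⊤) ≤ 1) : AbsolutelyIrreducible V := by
  have hsc : ∀ f ∈ V.commutant ⊤, ∃ b : ℚ_[ℓ], ∀ x, f x = b • x := by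
    intro f hf
    by_cases hY : ∀ x : Y, x = 0
    · exact ⟨0, fun x => by rw [hY x, map_zero, smul_zero]⟩
    push Not at hY
    obtain ⟨x₀, hx₀⟩ := hY
    have hone : (1 : V.commutant ⊤) ≠ 0 := by
      intro h
      have h2 := congrArg (fun z : V.commutant ⊤ => (z : End ℚ_[ℓ] Y) x₀) h
      exact hx₀ h2
    have h2 : finrank ℚ_[ℓ] (V.commutant ⊤) = 1 := by
      refine le_antisymm h1 ?_
      rw [Nat.one_le_iff_ne_zero]
      intro h3
      have := Module.finrank_zero_iff.1 h3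
      exact hone (Subsingleton.elim _ _)
    obtain ⟨b, hb⟩ := (finrank_eq_one_iff_of_nonzero' 1 hone).1 h2 ⟨f, hf⟩
    refine ⟨b, fun x => ?_⟩
    have h4 := congrArg (fun z : V.commutant ⊤ => (z : End ℚ_[ℓ] Y) x) hb
    exact h4.symm
  refine ⟨fun U hU => ?_, hsc⟩
  obtain ⟨U', hU', hc⟩ := hs U hU
  let P : End ℚ_[ℓ] Y := U.subtype ∘ₗ Submodule.projectionOnto U U' hc
  have hPU : ∀ x ∈ U, P x = x := fun x hx => by
    have := Submodule.projectionOnto_apply_left hc ⟨x, hx⟩
    change ((Submodule.projectionOnto U U' hc) x : Y) = x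
    rw [this]
  have hPU' : ∀ x ∈ U', P x = 0 := fun x hx => by
    have := (Submodule.projectionOnto_apply_eq_zero_iff hc).2 hx
    change ((Submodule.projectionOnto U U' hc) x : Y) = 0
    rw [this]
    rfl
  have hP : P ∈ V.commutant ⊤ := by
    rw [mem_commutant]
    intro g hg
    refine LinearMap.ext fun x => ?_
    obtain ⟨a, ha, b, hb, rfl⟩ := Submodule.mem_sup.1
      (show x ∈ U ⊔ U' by rw [hc.sup_eq_top]; trivial)
    rw [Module.End.mul_apply, Module.End.mul_apply, map_add P, hPU a ha, hPU' b hb, add_zero,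
      map_add (V.ρ g), map_add P, hPU _ (hU g hg a ha), hPU' _ (hU' g hg b hb), add_zero]
  obtain ⟨b, hb⟩ := hsc P hP
  by_cases hb0 : b = 0
  · left
    rw [eq_bot_iff]
    intro x hx
    have h2 := hb x
    rw [hPU x hx, hb0, zero_smul] at h2
    rw [h2]
    exact Submodule.zero_mem _
  · right
    have h2 : U' = ⊥ := by
      rw [eq_bot_iff]
      intro x hx
      have h2 := hb x
      rw [hPU' x hx] at h2
      rcases smul_eq_zero.1 h2.symm with h4 | h4
      · exact absurd h4 hb0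
      · rw [h4]
        exact Submodule.zero_mem _
    rw [h2] at hc
    simpa using hc.sup_eq_top

end Run7.h293.SP
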